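import Pool.Agent.Helper52.TC.Spec
import Pool.Agent.Helper78.ELP.D6

set_option autoImplicit false

/-! Modules A1 (the marks show the bits) and A2 (crossing over for the bits). -/

namespace Pool.Agent.Helper38.TC

open Pool.Agent.Helper52.TC
open Pool.Agent.Helper38.ELP
open Pool.Agent.Helper78.ELP

theorem A1 (h3 : specD3) (h4 : specD4) (h5 : specD5) : specA1 := by
  intro M uh uv hG c j hc hcM hj r
  have hN : 2 * c + 1 ≤ 2 * M + 2 := by omega
  unfold us mark rbit
  by_cases hjc : j ≤ 2 * c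
  · rw [if_pos hjc]
    simp only [if_true]
    have hIJ : j < 2 * c + 1 := by omega
    have hr := row h3 h5 hG hIJ hN
    obtain ⟨a1, -, -⟩ := right_side h3 hG hIJ hN
    cases r
    · simp only [Bool.false_eq_true, if_false]
      rw [a1, hr]
      cases uh 9 (10 * (2 * c + 1) + 2) <;> rfl
    · simp only [if_true]
      rw [hr]
      cases uh 9 (10 * (2 * c + 1) + 2) <;> rfl
  · rw [if_neg hjc]
    simp only [Bool.false_eq_true, if_false]
    have hI : 1 ≤ 2 * c + 1 := by omega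
    have hIJ : 2 * c + 1 ≤ j := by omega
    have hcol := col h3 h5 hG hI hIJ hj
    have hd := diag h3 h4 h5 hG hI hN
    obtain ⟨a1, -, -⟩ := top_side h3 hG hI hIJ hj
    cases r
    · simp only [Bool.false_eq_true, if_false]
      rw [a1, hcol, hd]
      cases uh 9 (10 * (2 * c + 1) + 2) <;> rfl
    · simp only [if_true]
      rw [hcol, hd]
      cases uh 9 (10 * (2 * c + 1) + 2) <;> rfl

/-- the combinatorial core of A2 -/
lemma cross_bits (M : ℕ) (x : Fin 4 → ℕ → Bool)
    (h1 : ∀ c, 1 ≤ c → c ≤ M → (x 0 c).toNat + (x 1 c).toNat = (x 2 c).toNat + (x 3 c).toNat)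
    (h2 : ∀ c d, 1 ≤ c → c < d → d ≤ M →
      (x 0 c && x 0 d).toNat + (x 1 c && x 1 d).toNat =
        (x 2 c && x 2 d).toNat + (x 3 c && x 3 d).toNat) :
    (∀ c, 1 ≤ c → c ≤ M → x 2 c = x 0 c ∧ x 3 c = x 1 c) ∨
    (∀ c, 1 ≤ c → c ≤ M → x 2 c = x 1 c ∧ x 3 c = x 0 c) := by
  by_cases hA : ∀ c, 1 ≤ c → c ≤ M → x 2 c = x 0 c ∧ x 3 c = x 1 c
  · exact Or.inl hA
  · right
    push Not at hA
    obtain ⟨d, hd1, hdM, hd⟩ := hA
    -- at `d` the bits are swapped and different
    have hsw : x 0 d ≠ x 1 d ∧ x 2 d = x 1 d ∧ x 3 d = x 0 d := by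
      have := h1 d hd1 hdM
      revert this hd
      cases x 0 d <;> cases x 1 d <;> cases x 2 d <;> cases x 3 d <;> simp
    intro c hc1 hcM
    rcases lt_trichotomy c d with hcd | hcd | hcd
    · have a1 := h1 c hc1 hcM
      have a2 := h2 c d hc1 hcd hdM
      obtain ⟨b1, b2, b3⟩ := hsw
      rw [b2, b3] at a2
      revert a1 a2 b1
      cases x 0 c <;> cases x 1 c <;> cases x 2 c <;> cases x 3 c <;>
        cases x 0 d <;> cases x 1 d <;> simp
    · subst hcd
      exact hsw.2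
    · have a1 := h1 c hc1 hcM
      have a2 := h2 d c hd1 hcd hcM
      obtain ⟨b1, b2, b3⟩ := hsw
      rw [b2, b3] at a2
      revert a1 a2 b1
      cases x 0 c <;> cases x 1 c <;> cases x 2 c <;> cases x 3 c <;>
        cases x 0 d <;> cases x 1 d <;> simp

theorem A2 (h6 : specD6) : specA2 := by
  intro M uh uv hG hH hV
  apply cross_bits M (fun k => rbit (uh k))
  · intro c _ _
    exact hH 9 (10 * (2 * c + 1) + 2)
  · intro c d hc hcd hd
    have e : ∀ k, (rbit (uh k) c && rbit (uh k) d) = uv k (10 * (2 * c + 1)) (10 * (2 * d + 1) + 1) :=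
      fun k => (h6 M (uh k) (uv k) (hG k) c d hc hcd hd).symm
    simp only [e]
    exact hV _ _

end Pool.Agent.Helper38.TC
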