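import Pool.Agent.Helper52.TC.Spec
import Pool.Agent.Helper68.ELP.D12
import Pool.Agent.Helper38.ELP.Asm

set_option autoImplicit false

/-! Modules A3 (good tours for all bits) and A4 (used edges and `tc`). -/

namespace Pool.Agent.Helper38.TC

open Pool.Agent.Helper52.TC
open Pool.Agent.Helper38.ELP
open Pool.Agent.Helper68.ELP (PN PN_inj unit_nb edge_unique TA useH_iff useV_iff posN_eq)

theorem rbit_uH {M : ℕ} {b : ℕ → Bool} (h0 : b 0 = false) (h1 : b (M + 1) = true) {c : ℕ}
    (_hc : 1 ≤ c) (hcM : c ≤ M) : rbit (uH (2 * M + 2) b) c = b c := by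
  have e := uH_loc (2 * M + 2) b 0 (2 * c + 1) 9 2 (by omega) (by omega)
  rw [Nat.mul_zero, Nat.zero_add] at e
  unfold rbit
  rw [e]
  have ht : ty (2 * M + 2) 0 (2 * c + 1) = .RB := ty_left_odd (by omega) (by omega)
  have hv := valid_cfg h0 h1 0 (2 * c + 1)
  have h2 := (st_port _ _ _ hv ⟨2, by omega⟩).1
  simp only at h2
  rw [h2, ht]
  have hh : hb (2 * M + 2) b 0 (2 * c + 1) = b c := by
    unfold hb wbit
    rw [if_neg (by omega), if_neg (by omega)]
    congr 1
    omega
  rw [hh]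
  cases b c <;> simp [hasR]

theorem A3 (h1 : specD1) (h8 : specD8) (h10 : specD10) : specA3 := by
  intro M β hM
  obtain ⟨b, hb⟩ : ∃ b : ℕ → Bool, b = fun c => if c = 0 then false else if c = M + 1 then true
    else β c := ⟨_, rfl⟩
  have b0 : b 0 = false := by rw [hb]; rfl
  have b1 : b (M + 1) = true := by rw [hb]; simp
  obtain ⟨τ, hu, hH, hV⟩ := h10 M b b0 b1
  obtain ⟨c1, c2, c3, c4, _⟩ := h8 M b b0 b1
  obtain ⟨hd, hc⟩ := h1 _ τ (card_ge M) hu
  refine ⟨τ, ?_, ?_, ?_⟩
  · intro i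
    have h := unit_nb hu i
    unfold Pool.Agent.Helper68.LP.Nb at h
    change Un (PN _ (τ i)) (PN _ (τ (finRotate _ i)))
    unfold Un
    rcases h with ⟨g1, g2⟩ | ⟨g1, g2⟩ | ⟨g1, g2⟩ | ⟨g1, g2⟩
    · exact Or.inl (Prod.ext g1 g2)
    · exact Or.inr (Or.inl (Prod.ext g1 g2.symm))
    · exact Or.inr (Or.inr (Or.inl (Prod.ext g1 g2)))
    · exact Or.inr (Or.inr (Or.inr (Prod.ext g1.symm g2)))
  · exact {
      alwH := fun x y h => by unfold tH at h; rw [hH] at h; exact (c1 x y h).1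
      alwV := fun x y h => by unfold tV at h; rw [hV] at h; exact (c2 x y h).1
      frcH := fun x y h => by unfold tH; rw [hH]; exact c3 x y h
      frcV := fun x y h => by unfold tV; rw [hV]; exact c4 x y h
      deg := hd
      nocyc := hc }
  · intro c hc1 hcM
    unfold tH
    rw [hH, rbit_uH b0 b1 hc1 hcM, hb]
    simp only
    rw [if_neg (by omega), if_neg (by omega)]

open Classical in
theorem tc_sum {m : ℕ} (hm : 3 ≤ m) {P : Fin m → ℕ × ℕ} (hP : Function.Injective P)
    (σ : Equiv.Perm (Fin m)) (p q : ℕ × ℕ) :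
    (∑ u, ∑ v, if P u = p ∧ P v = q then tc σ u v else 0) = if TA P σ p q then 1 else 0 := by
  by_cases hex : ∃ u v, P u = p ∧ P v = q
  · obtain ⟨u, v, hu, hv⟩ := hex
    rw [Finset.sum_eq_single u, Finset.sum_eq_single v, if_pos ⟨hu, hv⟩]
    · by_cases hTA : TA P σ p q
      · rw [if_pos hTA]
        obtain ⟨i, hi⟩ := hTA
        unfold tc
        rw [Finset.card_eq_one]
        refine ⟨i, ?_⟩
        ext j
        rw [Finset.mem_filter, Finset.mem_singleton]
        constructor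
        · rintro ⟨_, hj⟩
          refine edge_unique σ hm hP (p := p) (q := q) ?_ hi
          rcases hj with ⟨a, b⟩ | ⟨a, b⟩
          · exact Or.inl ⟨by rw [a, hu], by rw [b, hv]⟩
          · exact Or.inr ⟨by rw [a, hv], by rw [b, hu]⟩
        · rintro rfl
          refine ⟨Finset.mem_univ _, ?_⟩
          rcases hi with ⟨a, b⟩ | ⟨a, b⟩
          · exact Or.inl ⟨hP (a.trans hu.symm), hP (b.trans hv.symm)⟩
          · exact Or.inr ⟨hP (a.trans hv.symm), hP (b.trans hu.symm)⟩
      · rw [if_neg hTA]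
        unfold tc
        rw [Finset.card_eq_zero, Finset.filter_eq_empty_iff]
        rintro i - (⟨a, b⟩ | ⟨a, b⟩)
        · exact hTA ⟨i, Or.inl ⟨by rw [a, hu], by rw [b, hv]⟩⟩
        · exact hTA ⟨i, Or.inr ⟨by rw [a, hv], by rw [b, hu]⟩⟩
    · intro v' _ hv'
      rw [if_neg]
      rintro ⟨_, h2⟩
      exact hv' (hP (h2.trans hv.symm))
    · intro h; exact absurd (Finset.mem_univ _) h
    · intro u' _ hu'
      apply Finset.sum_eq_zero
      intro v' _
      rw [if_neg]
      rintro ⟨h2, _⟩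
      exact hu' (hP (h2.trans hu.symm))
    · intro h; exact absurd (Finset.mem_univ _) h
  · rw [if_neg]
    · apply Finset.sum_eq_zero
      intro u _
      apply Finset.sum_eq_zero
      intro v _
      rw [if_neg]
      rintro ⟨h1, h2⟩
      exact hex ⟨u, v, h1, h2⟩
    · rintro ⟨i, ⟨h1, h2⟩ | ⟨h1, h2⟩⟩
      · exact hex ⟨_, _, h1, h2⟩
      · exact hex ⟨_, _, h2, h1⟩

theorem A4 : specA4 := by
  intro N τ hN _ x y
  classical
  have key : ∀ (u : Bool) (Q : Prop) [Decidable Q], (u = true ↔ Q) → u.toNat = if Q then 1 else 0 := by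
    intro u Q _ h
    by_cases hQ : Q
    · rw [if_pos hQ, h.mpr hQ]; rfl
    · rw [if_neg hQ]
      have : u = false := by
        rw [← Bool.not_eq_true]
        exact fun h' => hQ (h.mp h')
      rw [this]; rfl
  constructor
  · have h1 := tc_sum hN (PN_inj N) τ (x, y) (x + 1, y)
    have h2 := key (tH N τ x y) (TA (PN N) τ (x, y) (x + 1, y)) (useH_iff (PN N) τ x y)
    rw [h2, ← h1]
    refine Finset.sum_congr rfl fun u _ => Finset.sum_congr rfl fun v _ => ?_
    rfl
  · have h1 := tc_sum hN (PN_inj N) τ (x, y) (x, y + 1)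
    have h2 := key (tV N τ x y) (TA (PN N) τ (x, y) (x, y + 1)) (useV_iff (PN N) τ x y)
    rw [h2, ← h1]
    refine Finset.sum_congr rfl fun u _ => Finset.sum_congr rfl fun v _ => ?_
    rfl

end Pool.Agent.Helper38.TC
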